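import Pool.Agent.Helper16.Knotoid.HeightFin

set_option autoImplicit false

namespace Pool.Agent.Helper16.Knotoid.Old.HeightOne

open Pool.Agent.Helper16.Knotoid

/-- Let `D` be a knotoid diagram in `S²` whose head can be joined to its tail by an arc crossing `D`
only once, at the edge `e` (so the knotoid has height at most one): continuing the path of `D` from
the head across the edge `e` gives a planar diagram with both endpoints in the same region, that is
a diagram of a classical knot. This is the overpass closure `K₊ = D.extend e true ε` if the new arc
passes over and the underpass closure `K₋ = D.extend e false (!ε)` if it passes under. Then `f = 1`
for `D` if and only if `f = 1` for both knots `K₊` and `K₋`. -/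
theorem result {n : ℕ} (D : GaussDiagram n) (e : Fin (2 * n + 1)) (ε : Bool)
    (hP : (D.extend e true ε).Planar)
    (hR : (D.extend e true ε).tailRegion = (D.extend e true ε).headRegion) :
    D.normalizedBracket = 1 ↔
      (D.extend e true ε).normalizedBracket = 1 ∧
        (D.extend e false (!ε)).normalizedBracket = 1 := by
  refine GaussDiagram.height_one (D.isExt_extend e true ε) (D.isExt_extend e false (!ε))
    (fun c f => D.extend_lam e true ε false (!ε) c f) ?_ hP hR
  rw [D.extend_sign_last, D.extend_sign_last]

end Pool.Agent.Helper16.Knotoid.Old.HeightOne

/-
Shelved hand-in (HeightOne, replaced by ThreeBraidoids at 15:12 on Dec 3), its claim file was: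
Proves: Let D be a knotoid diagram in S^2 whose head is joined to its tail by an arc crossing D once, at edge e, and let K+ (K-) be the knot diagram obtained by adding the arc over (under) D; then f_D = 1 if and only if f = 1 for both K+ and K-.
Definitions: GaussDiagram n: bijection (crossing, over/under) -> passages 0..2n-1, and signs; edge p precedes, edge p+1 follows passage p. Join, comps s: number of components of state s; normalizedBracket f = (-A^3)^(-w) sum_s A^(#A-#B) (-A^2-A^-2)^(comps-1). Corner: sides of edges meeting at a crossing, tail or head; classes = regions (tailRegion, headRegion: those of the ends); Planar: n+1 regions (diagram in S^2). extendFun, extend e o eps: the path goes on beyond the head across edge e at a new crossing of sign eps, over if o = true, under if o = false. K+ = extend e true eps is assumed planar with both ends in one region; K- = extend e false (!eps) is K+ with the new crossing changed.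
Relation: Partial answer to Q1, for knotoids of height <= 1: f = 1 iff both closures have Jones polynomial 1, so Q1 for them is reduced to knots (if the Jones polynomial detects the unknot, such K is trivial, as a crossing change between unknots is nugatory by Scharlemann-Thompson; this last step is not part of the Lean). I know no earlier proof.
-/
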