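import Pool.Agent.Helper16.Knotoid.Main

set_option autoImplicit false

namespace Pool.Agent.Helper16.Knotoid.Old.SemiAdequate

open Pool.Agent.Helper16.Knotoid

/-- A knotoid diagram in `S²` which is `A`-adequate or `B`-adequate (in the weak sense), or all of
whose crossings have the same sign, and whose normalized bracket polynomial is `1`, reduces to the
crossingless diagram by Reidemeister moves of type I. -/
theorem result {n : ℕ} (D : GaussDiagram n) (hD : D.Planar)
    (h : D.Adequate true ∨ D.Adequate false ∨ ∀ c d, D.sign c = D.sign d)
    (hf : D.normalizedBracket = 1) : R1Trivial D.word := by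
  rcases h with h | h | h
  · exact D.main hD true h hf
  · exact D.main hD false h hf
  · rcases Nat.eq_zero_or_pos n with h0 | h0
    · have h1 : D.word = [] := by
        unfold GaussDiagram.word
        rw [← List.length_eq_zero_iff, List.length_ofFn, h0]
      rw [h1]
      exact R1Trivial.nil
    · exact D.main hD (D.sign ⟨0, h0⟩) (D.adequate_of_sign fun c => h c ⟨0, h0⟩) hf

end Pool.Agent.Helper16.Knotoid.Old.SemiAdequate
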